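import Mathlib

/-!
# Covariance matrices, symplectic matrices and the squeezing measure `G`

Definitions for the additivity problem of the operational squeezing measure.
-/

open Matrix
open scoped Kronecker ComplexOrder

namespace Pool.Agent.Squeeze

/-- Index set of the phase-space coordinates `(Q_1, P_1, …, Q_n, P_n)` of `n` modes:
`(i, 0)` is the coordinate `Q_i` and `(i, 1)` is the coordinate `P_i`. -/
abbrev Idx (n : ℕ) : Type := Fin n × Fin 2

/-- The symplectic form `σ_n`: the direct sum of `n` copies of `!![0, 1; -1, 0]`. -/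
def sigma (n : ℕ) : Matrix (Idx n) (Idx n) ℝ :=
  (1 : Matrix (Fin n) (Fin n) ℝ) ⊗ₖ !![0, 1; -1, 0]

/-- `S ∈ Sp(2n)`. -/
def IsSymplectic {n : ℕ} (S : Matrix (Idx n) (Idx n) ℝ) : Prop :=
  Sᵀ * sigma n * S = sigma n

/-- `γ` is a covariance matrix on `n` modes: real symmetric with `γ - i σ_n` positive
semidefinite. -/
def IsCovariance {n : ℕ} (γ : Matrix (Idx n) (Idx n) ℝ) : Prop :=
  γ.IsSymm ∧
    (γ.map Complex.ofReal - Complex.I • (sigma n).map Complex.ofReal).PosSemidef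

/-- The singular values of `S` in decreasing order, counted from `k = 0`:
`singVal S k` is `s_{k+1}^↓(S)`. -/
noncomputable def singVal {n : ℕ} (S : Matrix (Idx n) (Idx n) ℝ) (k : ℕ) : ℝ :=
  (Matrix.toEuclideanLin S).singularValues k

/-- `G(γ) = inf { Σ_{k=1}^n log s_k^↓(S) : S ∈ Sp(2n), γ ≥ Sᵀ S }`. -/
noncomputable def G {n : ℕ} (γ : Matrix (Idx n) (Idx n) ℝ) : ℝ :=
  sInf {x : ℝ | ∃ S : Matrix (Idx n) (Idx n) ℝ, IsSymplectic S ∧ (γ - Sᵀ * S).PosSemidef ∧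
    x = ∑ k ∈ Finset.range n, Real.log (singVal S k)}

/-- The coordinates of `n₁` modes followed by those of `n₂` modes are the coordinates of
`n₁ + n₂` modes. -/
def sumIdx (n₁ n₂ : ℕ) : Idx n₁ ⊕ Idx n₂ ≃ Idx (n₁ + n₂) :=
  (Equiv.sumProdDistrib (Fin n₁) (Fin n₂) (Fin 2)).symm.trans
    (Equiv.prodCongr finSumFinEquiv (Equiv.refl (Fin 2)))

/-- The block-diagonal matrix `γ_A ⊕ γ_B` on `n₁ + n₂` modes. -/
def directSum {n₁ n₂ : ℕ} (γA : Matrix (Idx n₁) (Idx n₁) ℝ) (γB : Matrix (Idx n₂) (Idx n₂) ℝ) :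
    Matrix (Idx (n₁ + n₂)) (Idx (n₁ + n₂)) ℝ :=
  Matrix.reindex (sumIdx n₁ n₂) (sumIdx n₁ n₂) (Matrix.fromBlocks γA 0 0 γB)

end Pool.Agent.Squeeze
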