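import Mathlib

open Matrix
open scoped ComplexOrder MatrixOrder

set_option linter.unusedSectionVars false

namespace Pool.Agent.Squeeze

section general

variable {ι : Type*} [Fintype ι] [DecidableEq ι]

/-- existence of a positive definite square root -/
lemma exists_sqrt {X : Matrix ι ι ℝ} (hX : X.PosDef) :
    ∃ R : Matrix ι ι ℝ, R.PosDef ∧ R * R = X := by
  have h1 : CFC.sqrt X * CFC.sqrt X = X := CFC.sqrt_mul_sqrt_self X hX.posSemidef.nonneg
  have h2 : (CFC.sqrt X).PosSemidef := (CFC.sqrt_nonneg X).posSemidef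
  refine ⟨CFC.sqrt X, ?_, h1⟩
  rw [h2.posDef_iff_det_ne_zero]
  intro h
  have h3 : X.det = 0 := by rw [← h1, det_mul, h, zero_mul]
  exact hX.det_pos.ne' h3

lemma sqrt_uniq {R R' : Matrix ι ι ℝ} (hR : R.PosSemidef) (hR' : R'.PosSemidef)
    (h : R * R = R' * R') : R = R' := by
  have h1 : CFC.sqrt (R * R) = R := CFC.sqrt_unique rfl hR.nonneg
  have h2 : CFC.sqrt (R * R) = R' := CFC.sqrt_unique h.symm hR'.nonneg
  rw [← h1, h2]

/-- positive definite matrices are invertible -/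
lemma posDef_inv_mul {X : Matrix ι ι ℝ} (hX : X.PosDef) : X⁻¹ * X = 1 :=
  Matrix.nonsing_inv_mul X ((Matrix.isUnit_iff_isUnit_det X).1 hX.isUnit)

lemma posDef_mul_inv {X : Matrix ι ι ℝ} (hX : X.PosDef) : X * X⁻¹ = 1 :=
  Matrix.mul_nonsing_inv X ((Matrix.isUnit_iff_isUnit_det X).1 hX.isUnit)

lemma posDef_symm {X : Matrix ι ι ℝ} (hX : X.PosDef) : Xᵀ = X := by
  have := hX.isHermitian
  rwa [IsHermitian, conjTranspose_eq_transpose_of_trivial] at this

lemma posSemidef_symm {X : Matrix ι ι ℝ} (hX : X.PosSemidef) : Xᵀ = X := by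
  have := hX.isHermitian
  rwa [IsHermitian, conjTranspose_eq_transpose_of_trivial] at this

lemma posDef_conj {κ : Type*} [Fintype κ] {X : Matrix ι ι ℝ} (hX : X.PosDef) (P : Matrix ι κ ℝ)
    (hP : Function.Injective P.mulVec) : (Pᵀ * X * P).PosDef := by
  have := hX.conjTranspose_mul_mul_same hP
  rwa [conjTranspose_eq_transpose_of_trivial] at this

lemma posSemidef_conj {κ : Type*} [Fintype κ] {X : Matrix ι ι ℝ} (hX : X.PosSemidef)
    (P : Matrix ι κ ℝ) : (Pᵀ * X * P).PosSemidef := by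
  have := hX.conjTranspose_mul_mul_same P
  rwa [conjTranspose_eq_transpose_of_trivial] at this

lemma injective_of_left_inv {κ : Type*} [Fintype κ] [DecidableEq κ] {P : Matrix ι κ ℝ}
    {Q : Matrix κ ι ℝ} (h : Q * P = 1) : Function.Injective P.mulVec := by
  intro x y hxy
  have := congrArg Q.mulVec hxy
  simpa [mulVec_mulVec, h] using this

lemma inv_injective {X : Matrix ι ι ℝ} (hX : X.PosDef) : Function.Injective X.mulVec :=
  injective_of_left_inv (posDef_inv_mul hX)

/-- Existence of the geometric mean: the Riccati equation `M A⁻¹ M = B`. -/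
lemma exists_geom {A B : Matrix ι ι ℝ} (hA : A.PosDef) (hB : B.PosDef) :
    ∃ M : Matrix ι ι ℝ, M.PosDef ∧ M * A⁻¹ * M = B := by
  obtain ⟨R, hR, hRR⟩ := exists_sqrt hA
  have hRi := hR.inv
  have hC : (R⁻¹ * B * R⁻¹).PosDef := by
    have := posDef_conj hB R⁻¹ (inv_injective hRi)
    rwa [posDef_symm hRi] at this
  obtain ⟨K, hK, hKK⟩ := exists_sqrt hC
  refine ⟨R * K * R, ?_, ?_⟩
  · have := posDef_conj hK R (inv_injective hR)
    rwa [posDef_symm hR] at this
  · have h1 : A⁻¹ = R⁻¹ * R⁻¹ := by rw [← hRR, Matrix.mul_inv_rev]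
    calc R * K * R * A⁻¹ * (R * K * R)
        = R * K * (R * R⁻¹) * (R⁻¹ * R) * K * R := by rw [h1]; simp only [Matrix.mul_assoc]
      _ = R * (K * K) * R := by
          rw [posDef_mul_inv hR, posDef_inv_mul hR]; simp only [Matrix.mul_assoc, Matrix.mul_one]
      _ = (R * R⁻¹) * B * (R⁻¹ * R) := by rw [hKK]; simp only [Matrix.mul_assoc]
      _ = B := by rw [posDef_mul_inv hR, posDef_inv_mul hR, Matrix.one_mul, Matrix.mul_one]

/-- Uniqueness of the geometric mean. -/
lemma geom_uniq {A M M' : Matrix ι ι ℝ} (hA : A.PosDef) (hM : M.PosDef) (hM' : M'.PosDef)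
    (h : M * A⁻¹ * M = M' * A⁻¹ * M') : M = M' := by
  obtain ⟨R, hR, hRR⟩ := exists_sqrt hA
  have hRi := hR.inv
  have h1 : A⁻¹ = R⁻¹ * R⁻¹ := by rw [← hRR, Matrix.mul_inv_rev]
  have hK : ∀ M : Matrix ι ι ℝ, M.PosDef → (R⁻¹ * M * R⁻¹).PosDef := by
    intro M hM
    have := posDef_conj hM R⁻¹ (inv_injective hRi)
    rwa [posDef_symm hRi] at this
  have hsq : ∀ M : Matrix ι ι ℝ, (R⁻¹ * M * R⁻¹) * (R⁻¹ * M * R⁻¹) = R⁻¹ * (M * A⁻¹ * M) * R⁻¹ := by
    intro M
    rw [h1]; simp only [Matrix.mul_assoc]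
  have h2 : R⁻¹ * M * R⁻¹ = R⁻¹ * M' * R⁻¹ := by
    apply sqrt_uniq (hK M hM).posSemidef (hK M' hM').posSemidef
    rw [hsq, hsq, h]
  have h3 : ∀ M : Matrix ι ι ℝ, R * (R⁻¹ * M * R⁻¹) * R = M := by
    intro M
    calc R * (R⁻¹ * M * R⁻¹) * R = (R * R⁻¹) * M * (R⁻¹ * R) := by simp only [Matrix.mul_assoc]
      _ = M := by rw [posDef_mul_inv hR, posDef_inv_mul hR, Matrix.one_mul, Matrix.mul_one]
  rw [← h3 M, h2, h3]

/-- AM-GM: `A + B - 2 M` is positive semidefinite. -/
lemma am_gm {A B M : Matrix ι ι ℝ} (hA : A.PosDef) (hM : M.PosDef) (h : M * A⁻¹ * M = B) :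
    (A + B - (2 : ℝ) • M).PosSemidef := by
  have h1 := posSemidef_conj hA.inv.posSemidef (A - M)
  have h2 : (A - M)ᵀ * A⁻¹ * (A - M) = A + B - (2 : ℝ) • M := by
    rw [transpose_sub, posDef_symm hA, posDef_symm hM, ← h]
    rw [Matrix.sub_mul, Matrix.sub_mul, Matrix.mul_sub, Matrix.mul_sub, posDef_mul_inv hA,
      Matrix.one_mul, Matrix.one_mul, Matrix.mul_assoc M, posDef_inv_mul hA, Matrix.mul_one, two_smul]
    abel
  rwa [h2] at h1

/-- spectral theorem with real orthogonal matrices -/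
lemma spectral {X : Matrix ι ι ℝ} (hX : X.IsHermitian) :
    ∃ U : Matrix ι ι ℝ, Uᵀ * U = 1 ∧ U * Uᵀ = 1 ∧ X = U * diagonal hX.eigenvalues * Uᵀ := by
  refine ⟨(hX.eigenvectorUnitary : Matrix ι ι ℝ), ?_, ?_, ?_⟩
  · have := Unitary.coe_star_mul_self hX.eigenvectorUnitary
    rwa [star_eq_conjTranspose, conjTranspose_eq_transpose_of_trivial] at this
  · have := Unitary.coe_mul_star_self hX.eigenvectorUnitary
    rwa [Unitary.coe_star, star_eq_conjTranspose, conjTranspose_eq_transpose_of_trivial] at this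
  · have := hX.spectral_theorem
    rw [Unitary.conjStarAlgAut_apply, ← Unitary.coe_star, Unitary.coe_star, star_eq_conjTranspose,
      conjTranspose_eq_transpose_of_trivial] at this
    exact this

/-- determinant of one plus a positive semidefinite matrix -/
lemma one_le_det_one_add {W : Matrix ι ι ℝ} (hW : W.PosSemidef) : 1 ≤ (1 + W).det := by
  obtain ⟨U, hU1, hU2, hs⟩ := spectral hW.isHermitian
  have h1 : (1 + W).det = (diagonal (fun i => 1 + hW.isHermitian.eigenvalues i)).det := by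
    have e1 : (1 : Matrix ι ι ℝ) + W = U *
        diagonal (fun i => 1 + hW.isHermitian.eigenvalues i) * Uᵀ := by
      have e2 : diagonal (fun i => 1 + hW.isHermitian.eigenvalues i)
          = (1 : Matrix ι ι ℝ) + diagonal hW.isHermitian.eigenvalues := by
        rw [← diagonal_one, diagonal_add]
      rw [e2, Matrix.mul_add, Matrix.add_mul, Matrix.mul_one, hU2, ← hs]
    rw [e1, det_mul_comm, ← Matrix.mul_assoc, hU1, Matrix.one_mul]
  rw [h1, det_diagonal]
  have : ∀ i ∈ Finset.univ, (1 : ℝ) ≤ 1 + hW.isHermitian.eigenvalues i := by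
    intro i _
    have := hW.eigenvalues_nonneg i
    linarith
  calc (1 : ℝ) = ∏ i : ι, (1 : ℝ) := by simp
    _ ≤ _ := Finset.prod_le_prod (fun i _ => zero_le_one) this

/-- monotonicity of the determinant -/
lemma det_mono {X Y : Matrix ι ι ℝ} (hX : X.PosDef) (h : (Y - X).PosSemidef) : X.det ≤ Y.det := by
  obtain ⟨R, hR, hRR⟩ := exists_sqrt hX
  have hRi := hR.inv
  have hW : (R⁻¹ * (Y - X) * R⁻¹).PosSemidef := by
    have := posSemidef_conj h R⁻¹
    rwa [posDef_symm hRi] at this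
  have h1 : Y = R * (1 + R⁻¹ * (Y - X) * R⁻¹) * R := by
    rw [Matrix.mul_add, Matrix.add_mul, Matrix.mul_one, hRR]
    have : R * (R⁻¹ * (Y - X) * R⁻¹) * R = (R * R⁻¹) * (Y - X) * (R⁻¹ * R) := by
      simp only [Matrix.mul_assoc]
    rw [this, posDef_mul_inv hR, posDef_inv_mul hR, Matrix.one_mul, Matrix.mul_one]
    abel
  have h2 := one_le_det_one_add hW
  have h3 := hR.det_pos
  have h4 : Y.det = R.det * R.det * (1 + R⁻¹ * (Y - X) * R⁻¹).det := by
    conv_lhs => rw [h1]
    rw [det_mul, det_mul]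
    ring
  have h5 : X.det = R.det * R.det := by rw [← hRR, det_mul]
  rw [h4, h5]
  nlinarith [mul_pos h3 h3]

/-- The function `f(X) = Σ log max(1, λ)` over the eigenvalues `λ` of `X`. -/
noncomputable def f (X : Matrix ι ι ℝ) : ℝ :=
  (X.charpoly.roots.map (fun t => Real.log (max 1 t))).sum

lemma f_eq {X : Matrix ι ι ℝ} (hX : X.IsHermitian) :
    f X = ∑ i, Real.log (max 1 (hX.eigenvalues i)) := by
  rw [f, hX.roots_charpoly_eq_eigenvalues, Multiset.map_map]
  rfl

lemma f_nonneg {X : Matrix ι ι ℝ} (hX : X.IsHermitian) : 0 ≤ f X := by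
  rw [f_eq hX]
  exact Finset.sum_nonneg fun i _ => Real.log_nonneg (le_max_left _ _)

lemma f_reindex {κ : Type*} [Fintype κ] [DecidableEq κ] (e : ι ≃ κ) (X : Matrix ι ι ℝ) :
    f (reindex e e X) = f X := by
  rw [f, charpoly_reindex, f]

lemma f_blocks {κ : Type*} [Fintype κ] [DecidableEq κ] (A : Matrix ι ι ℝ) (D : Matrix κ κ ℝ) :
    f (fromBlocks A 0 0 D) = f A + f D := by
  rw [f, charpoly_fromBlocks_zero₁₂, Polynomial.roots_mul, Multiset.map_add, Multiset.sum_add, f, f]
  exact mul_ne_zero (charpoly_monic _).ne_zero (charpoly_monic _).ne_zero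

lemma f_conj (X Z Z' : Matrix ι ι ℝ) (h : Z' * Z = 1) : f (Z * X * Z') = f X := by
  rw [f, charpoly_mul_comm, ← Matrix.mul_assoc, h, Matrix.one_mul, f]

/-- `log det (Pᵀ X P) ≤ f X` for `P` with orthonormal columns -/
lemma logdet_le {κ : Type*} [Fintype κ] [DecidableEq κ] {X : Matrix ι ι ℝ} (hX : X.PosDef)
    (P : Matrix ι κ ℝ) (hP : Pᵀ * P = 1) : Real.log (Pᵀ * X * P).det ≤ f X := by
  obtain ⟨U, hU1, hU2, hs⟩ := spectral hX.isHermitian
  set l := hX.isHermitian.eigenvalues with hl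
  have hlpos : ∀ i, 0 < l i := fun i => hX.eigenvalues_pos i
  obtain ⟨Q, hQ⟩ : ∃ Q : Matrix ι κ ℝ, Q = Uᵀ * P := ⟨_, rfl⟩
  have hQQ : Qᵀ * Q = 1 := by
    rw [hQ, transpose_mul, transpose_transpose, Matrix.mul_assoc, ← Matrix.mul_assoc U, hU2,
      Matrix.one_mul, hP]
  have h1 : Pᵀ * X * P = Qᵀ * diagonal l * Q := by
    rw [hs, hQ, transpose_mul, transpose_transpose]; simp only [Matrix.mul_assoc]
  obtain ⟨E, hE⟩ : ∃ E : Matrix ι ι ℝ, E = diagonal (fun i => Real.sqrt (max 1 (l i) - 1)) :=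
    ⟨_, rfl⟩
  have hEE : E * E = diagonal (fun i => max 1 (l i) - 1) := by
    rw [hE, diagonal_mul_diagonal]
    congr 1
    ext i
    exact Real.mul_self_sqrt (sub_nonneg.2 (le_max_left _ _))
  have hEt : Eᵀ = E := by rw [hE, diagonal_transpose]
  -- first comparison
  have hpd : (Qᵀ * diagonal l * Q).PosDef :=
    posDef_conj (PosDef.diagonal hlpos) Q (injective_of_left_inv hQQ)
  have h2 : (Qᵀ * diagonal l * Q).det ≤ (1 + (E * Q)ᵀ * (E * Q)).det := by
    apply det_mono hpd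
    have h3 : 1 + (E * Q)ᵀ * (E * Q) - Qᵀ * diagonal l * Q
        = Qᵀ * diagonal (fun i => max 1 (l i) - l i) * Q := by
      have e1 : (1 : Matrix κ κ ℝ) = Qᵀ * (diagonal fun _ => (1 : ℝ) : Matrix ι ι ℝ) * Q := by
        rw [diagonal_one, Matrix.mul_one, hQQ]
      have e2 : (E * Q)ᵀ * (E * Q) = Qᵀ * diagonal (fun i => max 1 (l i) - 1) * Q := by
        rw [transpose_mul, hEt, ← hEE]; simp only [Matrix.mul_assoc]
      rw [e1, e2, ← Matrix.add_mul, ← Matrix.mul_add, ← Matrix.sub_mul, ← Matrix.mul_sub,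
        diagonal_add, diagonal_sub]
      congr 3
      ext i
      ring
    rw [h3]
    apply posSemidef_conj
    apply PosSemidef.diagonal
    intro i
    exact sub_nonneg.2 (le_max_right _ _)
  have h4 : (1 + (E * Q)ᵀ * (E * Q)).det = (1 + E * (Q * Qᵀ) * E).det := by
    rw [det_one_add_mul_comm, transpose_mul, hEt]; simp only [Matrix.mul_assoc]
  have h5 : (1 + E * (Q * Qᵀ) * E).det ≤ (1 + E * E).det := by
    apply det_mono
    · have : (E * (Q * Qᵀ) * E).PosSemidef := by
        have h6 := posSemidef_conj (PosSemidef.one (n := κ) (R := ℝ)) (Qᵀ * E)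
        have h7 : (Qᵀ * E)ᵀ * (1 : Matrix κ κ ℝ) * (Qᵀ * E) = E * (Q * Qᵀ) * E := by
          rw [transpose_mul, transpose_transpose, hEt, Matrix.mul_one]
          simp only [Matrix.mul_assoc]
        rwa [h7] at h6
      exact PosDef.one.add_posSemidef this
    · have h6 : 1 + E * E - (1 + E * (Q * Qᵀ) * E) = E * (1 - Q * Qᵀ) * E := by
        rw [Matrix.mul_sub, Matrix.sub_mul, Matrix.mul_one]; abel
      rw [h6]
      have h8 : (1 - Q * Qᵀ)ᵀ * (1 - Q * Qᵀ) = 1 - Q * Qᵀ := by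
        rw [transpose_sub, transpose_one, transpose_mul, transpose_transpose, Matrix.mul_sub,
          Matrix.mul_one, Matrix.sub_mul, Matrix.one_mul, ← Matrix.mul_assoc, Matrix.mul_assoc Q,
          hQQ, Matrix.mul_one]
        abel
      have h9 := posSemidef_conj (PosSemidef.one (n := ι) (R := ℝ)) ((1 - Q * Qᵀ) * E)
      have h10 : ((1 - Q * Qᵀ) * E)ᵀ * (1 : Matrix ι ι ℝ) * ((1 - Q * Qᵀ) * E)
          = E * (1 - Q * Qᵀ) * E := by
        rw [transpose_mul, hEt, Matrix.mul_one, Matrix.mul_assoc, ← Matrix.mul_assoc (1 - Q * Qᵀ)ᵀ,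
          h8, ← Matrix.mul_assoc]
      rwa [h10] at h9
  have h6 : (1 + E * E).det = ∏ i, max 1 (l i) := by
    rw [hEE, ← diagonal_one, diagonal_add, det_diagonal]
    refine Finset.prod_congr rfl fun i _ => ?_
    ring
  rw [h1, f_eq hX.isHermitian, ← Real.log_prod (fun i _ => (lt_of_lt_of_le one_pos (le_max_left 1 _)).ne')]
  apply Real.log_le_log hpd.det_pos
  rw [← h6]
  rw [h4] at h2
  exact h2.trans h5

/-- compressions of the Riccati relation -/
lemma schur_compress {κ : Type*} [Fintype κ] [DecidableEq κ] {A B M : Matrix ι ι ℝ}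
    (hA : A.PosDef) (hM : M.PosDef) (h : M * A⁻¹ * M = B) (P : Matrix ι κ ℝ)
    (hP : Function.Injective P.mulVec) :
    (Pᵀ * B * P - (Pᵀ * M * P) * (Pᵀ * A * P)⁻¹ * (Pᵀ * M * P)).PosSemidef := by
  have hA' : (Pᵀ * A * P).PosDef := posDef_conj hA P hP
  let _ := hA.isUnit.invertible
  let _ := hA'.isUnit.invertible
  have h1 : (fromBlocks A M Mᴴ B).PosSemidef := by
    rw [PosDef.fromBlocks₁₁ M B hA, conjTranspose_eq_transpose_of_trivial, posDef_symm hM, h,
      sub_self]
    exact PosSemidef.zero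
  have h2 := posSemidef_conj h1 (fromBlocks P 0 0 P)
  have h3 : (fromBlocks P 0 0 P)ᵀ * fromBlocks A M Mᴴ B * fromBlocks P 0 0 P
      = fromBlocks (Pᵀ * A * P) (Pᵀ * M * P) (Pᵀ * M * P)ᴴ (Pᵀ * B * P) := by
    rw [fromBlocks_transpose, fromBlocks_multiply, fromBlocks_multiply]
    simp only [conjTranspose_eq_transpose_of_trivial, transpose_zero, Matrix.zero_mul,
      Matrix.mul_zero, add_zero, zero_add, posDef_symm hM, transpose_mul, transpose_transpose,
      Matrix.mul_assoc]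
  rw [h3, PosDef.fromBlocks₁₁ _ _ hA', conjTranspose_eq_transpose_of_trivial,
    posDef_symm (posDef_conj hM P hP)] at h2
  exact h2

/-- determinant inequality for compressions of the geometric mean -/
lemma det_geom {κ : Type*} [Fintype κ] [DecidableEq κ] {A B M : Matrix ι ι ℝ}
    (hA : A.PosDef) (hM : M.PosDef) (h : M * A⁻¹ * M = B) (P : Matrix ι κ ℝ)
    (hP : Function.Injective P.mulVec) :
    (Pᵀ * M * P).det ^ 2 ≤ (Pᵀ * A * P).det * (Pᵀ * B * P).det := by
  have hA' : (Pᵀ * A * P).PosDef := posDef_conj hA P hP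
  have hM' : (Pᵀ * M * P).PosDef := posDef_conj hM P hP
  have h1 := schur_compress hA hM h P hP
  have h2 : ((Pᵀ * M * P) * (Pᵀ * A * P)⁻¹ * (Pᵀ * M * P)).PosDef := by
    have := posDef_conj hA'.inv (Pᵀ * M * P) (inv_injective hM')
    rwa [posDef_symm hM'] at this
  have h3 := det_mono h2 h1
  rw [det_mul, det_mul, det_nonsing_inv, Ring.inverse_eq_inv'] at h3
  have h4 := hA'.det_pos
  have h5 : (Pᵀ * M * P).det ^ 2 = (Pᵀ * A * P).det *
      ((Pᵀ * M * P).det * ((Pᵀ * A * P).det)⁻¹ * (Pᵀ * M * P).det) := by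
    field_simp
  rw [h5]
  exact mul_le_mul_of_nonneg_left h3 h4.le

/-- `f` is midpoint convex with respect to the geometric mean. -/
lemma f_geom {A B M : Matrix ι ι ℝ} (hA : A.PosDef) (hB : B.PosDef) (hM : M.PosDef)
    (h : M * A⁻¹ * M = B) : 2 * f M ≤ f A + f B := by
  classical
  obtain ⟨U, hU1, hU2, hs⟩ := spectral hM.isHermitian
  set l := hM.isHermitian.eigenvalues with hl
  have hlpos : ∀ i, 0 < l i := fun i => hM.eigenvalues_pos i
  obtain ⟨P, hPdef⟩ : ∃ P : Matrix ι {i // 1 < l i} ℝ, P = U.submatrix id Subtype.val := ⟨_, rfl⟩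
  have hPX : ∀ X : Matrix ι ι ℝ, Pᵀ * X * P = (Uᵀ * X * U).submatrix Subtype.val Subtype.val := by
    intro X
    rw [hPdef, transpose_submatrix,
      Matrix.submatrix_mul (Uᵀ * X) U Subtype.val id Subtype.val Function.bijective_id,
      Matrix.submatrix_mul Uᵀ X Subtype.val id id Function.bijective_id, submatrix_id_id]
  have hP1 : Pᵀ * P = 1 := by
    have := hPX 1
    rw [Matrix.mul_one, Matrix.mul_one, hU1, submatrix_one _ Subtype.val_injective] at this
    exact this
  have hPM : Pᵀ * M * P = diagonal (fun i : {i // 1 < l i} => l i) := by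
    rw [hPX M]
    have : Uᵀ * M * U = diagonal l := by
      rw [hs]
      calc Uᵀ * (U * diagonal l * Uᵀ) * U = (Uᵀ * U) * diagonal l * (Uᵀ * U) := by
            simp only [Matrix.mul_assoc]
        _ = _ := by rw [hU1, Matrix.one_mul, Matrix.mul_one]
    rw [this, submatrix_diagonal _ _ Subtype.val_injective]
    rfl
  have hfM : f M = Real.log (Pᵀ * M * P).det := by
    rw [hPM, det_diagonal, f_eq hM.isHermitian, Real.log_prod (fun i _ => (hlpos _).ne')]
    have h1 : ∀ i, Real.log (max 1 (l i)) = if 1 < l i then Real.log (l i) else 0 := by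
      intro i
      split_ifs with hi
      · rw [max_eq_right hi.le]
      · rw [max_eq_left (not_lt.1 hi), Real.log_one]
    simp only [← hl, h1]
    rw [← Finset.sum_filter, Finset.sum_subtype (p := fun i => 1 < l i)]
    intro x
    simp
  have hPinj : Function.Injective P.mulVec := injective_of_left_inv hP1
  have h1 := logdet_le hA P hP1
  have h2 := logdet_le hB P hP1
  have h3 := det_geom hA hM h P hPinj
  have hA' := (posDef_conj hA P hPinj).det_pos
  have hB' := (posDef_conj hB P hPinj).det_pos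
  have hM' := (posDef_conj hM P hPinj).det_pos
  have h4 : 2 * Real.log (Pᵀ * M * P).det ≤ Real.log (Pᵀ * A * P).det + Real.log (Pᵀ * B * P).det := by
    rw [← Real.log_mul hA'.ne' hB'.ne']
    have : 2 * Real.log (Pᵀ * M * P).det = Real.log ((Pᵀ * M * P).det ^ 2) := by
      rw [Real.log_pow]; norm_num
    rw [this]
    exact Real.log_le_log (by positivity) h3
  rw [hfM]
  linarith

end general

end Pool.Agent.Squeeze
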