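import Pool.Agent.Squeeze.Sing

open Matrix
open scoped Kronecker ComplexOrder MatrixOrder

set_option linter.unusedSectionVars false

namespace Pool.Agent.Squeeze

section cov

variable {ι : Type*} [Fintype ι] [DecidableEq ι]

lemma re_form (γ σ : Matrix ι ι ℝ) (x y : ι → ℝ) :
    (star (fun i => (x i : ℂ) + Complex.I * (y i : ℂ)) ⬝ᵥ
      ((γ.map Complex.ofReal - Complex.I • σ.map Complex.ofReal) *ᵥ
        (fun i => (x i : ℂ) + Complex.I * (y i : ℂ)))).re
      = x ⬝ᵥ γ *ᵥ x + y ⬝ᵥ γ *ᵥ y + (x ⬝ᵥ σ *ᵥ y - y ⬝ᵥ σ *ᵥ x) := by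
  simp only [dotProduct, mulVec, Finset.mul_sum, Complex.re_sum, ← Finset.sum_add_distrib,
    ← Finset.sum_sub_distrib]
  refine Finset.sum_congr rfl fun i _ => Finset.sum_congr rfl fun j _ => ?_
  simp only [Pi.star_apply, RCLike.star_def, map_add, Complex.conj_ofReal, map_mul, Complex.conj_I,
    Matrix.sub_apply, Matrix.map_apply, Matrix.smul_apply, smul_eq_mul, Complex.mul_re,
    Complex.mul_im, Complex.add_re, Complex.add_im, Complex.sub_re, Complex.sub_im,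
    Complex.neg_re, Complex.neg_im, Complex.ofReal_re, Complex.ofReal_im, Complex.I_re,
    Complex.I_im]
  ring

lemma antisymm_form {σ : Matrix ι ι ℝ} (h1 : σᵀ = -σ) (x y : ι → ℝ) :
    y ⬝ᵥ σ *ᵥ x = - (x ⬝ᵥ σ *ᵥ y) := by
  rw [dotProduct_mulVec, ← mulVec_transpose, h1, neg_mulVec, neg_dotProduct, dotProduct_comm]

lemma cov_ineq {γ σ : Matrix ι ι ℝ} (h1 : σᵀ = -σ)
    (h : (γ.map Complex.ofReal - Complex.I • σ.map Complex.ofReal).PosSemidef) (x y : ι → ℝ) :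
    0 ≤ x ⬝ᵥ γ *ᵥ x + y ⬝ᵥ γ *ᵥ y + 2 * (x ⬝ᵥ σ *ᵥ y) := by
  have h3 := h.dotProduct_mulVec_nonneg (fun i => (x i : ℂ) + Complex.I * (y i : ℂ))
  have h4 := (Complex.le_def.1 h3).1
  rw [re_form, antisymm_form h1 x y, Complex.zero_re] at h4
  linarith

lemma cov_posDef {γ σ : Matrix ι ι ℝ} (h1 : σᵀ = -σ) (h2 : σ * σ = -1) (hs : γᵀ = γ)
    (h : (γ.map Complex.ofReal - Complex.I • σ.map Complex.ofReal).PosSemidef) : γ.PosDef := by
  refine PosDef.of_dotProduct_mulVec_pos ?_ fun x hx => ?_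
  · rw [IsHermitian, conjTranspose_eq_transpose_of_trivial, hs]
  · rw [star_trivial]
    have hx2 : 0 < x ⬝ᵥ x := by
      have := dotProduct_star_self_pos_iff.2 hx
      rwa [star_trivial] at this
    obtain ⟨z, hz⟩ : ∃ z : ι → ℝ, x ⬝ᵥ σ *ᵥ z = x ⬝ᵥ x := by
      refine ⟨-(σ *ᵥ x), ?_⟩
      rw [mulVec_neg, mulVec_mulVec, h2, neg_mulVec, one_mulVec, neg_neg]
    have key : ∀ s : ℝ, 0 ≤ x ⬝ᵥ γ *ᵥ x + s ^ 2 * (z ⬝ᵥ γ *ᵥ z) + 2 * s * (x ⬝ᵥ x) := by
      intro s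
      have := cov_ineq h1 h x (s • z)
      rw [mulVec_smul, mulVec_smul, dotProduct_smul, dotProduct_smul, smul_dotProduct, hz] at this
      simp only [smul_eq_mul] at this
      nlinarith [this]
    have hx0 : 0 ≤ x ⬝ᵥ γ *ᵥ x := by simpa using key 0
    have hz0 : 0 ≤ z ⬝ᵥ γ *ᵥ z := by
      have := cov_ineq h1 h z 0
      simpa using this
    by_contra hcon
    have hzero : x ⬝ᵥ γ *ᵥ x = 0 := le_antisymm (not_lt.1 hcon) hx0
    set c := z ⬝ᵥ γ *ᵥ z with hc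
    set q := x ⬝ᵥ x with hq
    have h3 := key (-(q / (c + 1)))
    rw [hzero] at h3
    have h4 : 0 < c + 1 := by linarith
    have h5 : 0 + (-(q / (c + 1))) ^ 2 * c + 2 * (-(q / (c + 1))) * q
        = - (q ^ 2 * (c + 2) / (c + 1) ^ 2) := by
      field_simp
      ring
    rw [h5] at h3
    have h6 : 0 < q ^ 2 * (c + 2) / (c + 1) ^ 2 := by positivity
    linarith

lemma cov_tau {γ σ : Matrix ι ι ℝ} (h1 : σᵀ = -σ) (h2 : σ * σ = -1) (hs : γᵀ = γ)
    (h : (γ.map Complex.ofReal - Complex.I • σ.map Complex.ofReal).PosSemidef) :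
    (γ - tau σ γ).PosSemidef := by
  have hpd := cov_posDef h1 h2 hs h
  refine PosSemidef.of_dotProduct_mulVec_nonneg ?_ fun x => ?_
  · have := (tau_posDef h1 h2 hpd).isHermitian
    exact hpd.isHermitian.sub this
  · rw [star_trivial, sub_mulVec, dotProduct_sub, tau, neg_mulVec, dotProduct_neg, sub_neg_eq_add]
    set y := γ⁻¹ *ᵥ (σ *ᵥ x) with hy
    have e1 : γ *ᵥ y = σ *ᵥ x := by
      rw [hy, mulVec_mulVec, posDef_mul_inv hpd, one_mulVec]
    have e2 : (σ * γ⁻¹ * σ) *ᵥ x = σ *ᵥ y := by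
      rw [hy, mulVec_mulVec, mulVec_mulVec, Matrix.mul_assoc]
    have e3 : y ⬝ᵥ γ *ᵥ y = - (x ⬝ᵥ σ *ᵥ y) := by
      rw [e1, antisymm_form h1 x y]
    have := cov_ineq h1 h x y
    rw [e3] at this
    rw [e2]
    linarith

end cov

lemma symplectic_transpose {n : ℕ} {S : Matrix (Idx n) (Idx n) ℝ} (hS : IsSymplectic S) :
    S * sigma n * Sᵀ = sigma n := by
  have h2 := sigma_sq n
  have h3 : (-(sigma n * Sᵀ * sigma n)) * S = 1 := by
    calc (-(sigma n * Sᵀ * sigma n)) * S = -(sigma n * (Sᵀ * sigma n * S)) := by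
          simp only [Matrix.neg_mul, Matrix.mul_assoc]
      _ = 1 := by rw [hS, h2, neg_neg]
  have h4 : S * (-(sigma n * Sᵀ * sigma n)) = 1 := mul_eq_one_comm.1 h3
  calc S * sigma n * Sᵀ = (S * (-(sigma n * Sᵀ * sigma n))) * sigma n := by
        have : (-(sigma n * Sᵀ * sigma n)) * sigma n = sigma n * Sᵀ := by
          rw [Matrix.neg_mul, Matrix.mul_assoc, h2]; simp
        rw [Matrix.mul_assoc S (-(sigma n * Sᵀ * sigma n)), this, Matrix.mul_assoc]
    _ = sigma n := by rw [h4, Matrix.one_mul]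

lemma pure_of_symplectic {n : ℕ} {S : Matrix (Idx n) (Idx n) ℝ} (hS : IsSymplectic S) :
    Pure (sigma n) (Sᵀ * S) := by
  have h2 := sigma_sq n
  refine ⟨?_, ?_⟩
  · have hinj : Function.Injective S.mulVec := injective_of_left_inv
      (Q := -(sigma n * Sᵀ * sigma n)) (by
        calc (-(sigma n * Sᵀ * sigma n)) * S = -(sigma n * (Sᵀ * sigma n * S)) := by
              simp only [Matrix.neg_mul, Matrix.mul_assoc]
          _ = 1 := by rw [hS, h2, neg_neg])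
    have := posDef_conj (PosDef.one (n := Idx n) (R := ℝ)) S hinj
    rwa [Matrix.mul_one] at this
  · calc Sᵀ * S * sigma n * (Sᵀ * S) = Sᵀ * (S * sigma n * Sᵀ) * S := by
          simp only [Matrix.mul_assoc]
      _ = sigma n := by rw [symplectic_transpose hS, hS]

/-- pure matrices below `γ` -/
def below {n : ℕ} (γ : Matrix (Idx n) (Idx n) ℝ) : Set (Matrix (Idx n) (Idx n) ℝ) :=
  {Γ | Pure (sigma n) Γ ∧ (γ - Γ).PosSemidef}

lemma G_eq {n : ℕ} (γ : Matrix (Idx n) (Idx n) ℝ) :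
    G γ = sInf ((fun Γ => f Γ / 2) '' below γ) := by
  rw [G]
  congr 1
  ext x
  simp only [Set.mem_ofPred_eq, Set.mem_image, below]
  constructor
  · rintro ⟨S, hS, hle, rfl⟩
    exact ⟨Sᵀ * S, ⟨pure_of_symplectic hS, hle⟩, (sum_log_singVal (pure_of_symplectic hS)).symm⟩
  · rintro ⟨Γ, ⟨hΓ, hle⟩, rfl⟩
    obtain ⟨S, hS, hSS⟩ := exists_sqrt hΓ.1
    have hSt : Sᵀ = S := posDef_symm hS
    have h3 : Sᵀ * S = Γ := by rw [hSt, hSS]
    refine ⟨S, ?_, ?_, ?_⟩
    · rw [IsSymplectic, hSt]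
      exact pure_sqrt (sigma_transpose n) (sigma_sq n) hΓ hS hSS
    · rw [h3]; exact hle
    · rw [sum_log_singVal (by rw [h3]; exact hΓ), h3]

lemma below_nonempty {n : ℕ} {γ : Matrix (Idx n) (Idx n) ℝ} (hγ : IsCovariance γ) :
    (below γ).Nonempty := by
  have h1 := sigma_transpose n
  have h2 := sigma_sq n
  exact exists_pure h1 h2 (cov_posDef h1 h2 hγ.1 hγ.2) (cov_tau h1 h2 hγ.1 hγ.2)

lemma below_bdd {n : ℕ} (γ : Matrix (Idx n) (Idx n) ℝ) :
    BddBelow ((fun Γ => f Γ / 2) '' below γ) := by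
  refine ⟨0, ?_⟩
  rintro x ⟨Γ, hΓ, rfl⟩
  have := f_nonneg hΓ.1.1.isHermitian
  simp only
  linarith

lemma sigma_sum (n₁ n₂ : ℕ) : reindex (sumIdx n₁ n₂) (sumIdx n₁ n₂)
    (fromBlocks (sigma n₁) 0 0 (sigma n₂)) = sigma (n₁ + n₂) := by
  ext ⟨i, a⟩ ⟨j, b⟩
  simp only [reindex_apply, submatrix_apply]
  have key : ∀ (i : Fin (n₁ + n₂)) (a : Fin 2), (sumIdx n₁ n₂).symm (i, a) =
      match finSumFinEquiv.symm i with
      | Sum.inl i => Sum.inl (i, a)
      | Sum.inr i => Sum.inr (i, a) := by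
    intro i a
    simp only [sumIdx, Equiv.symm_trans_apply, Equiv.symm_symm, Equiv.prodCongr_symm,
      Equiv.prodCongr_apply, Equiv.refl_symm, Equiv.coe_refl, Prod.map_apply, id_eq]
    rcases finSumFinEquiv.symm i with i | i <;> rfl
  rw [key, key]
  obtain ⟨i, rfl⟩ := finSumFinEquiv.surjective i
  obtain ⟨j, rfl⟩ := finSumFinEquiv.surjective j
  rw [Equiv.symm_apply_apply, Equiv.symm_apply_apply]
  have hne : ∀ (i : Fin n₁) (j : Fin n₂), Fin.castAdd n₂ i ≠ Fin.natAdd n₁ j := by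
    intro i j h
    have h1 := congrArg Fin.val h
    rw [Fin.val_castAdd, Fin.val_natAdd] at h1
    have := i.2
    omega
  rcases i with i | i <;> rcases j with j | j
  · simp [sigma, kroneckerMap_apply, Matrix.one_apply]
  · simp [sigma, kroneckerMap_apply, hne i j]
  · simp [sigma, kroneckerMap_apply, (hne j i).symm]
  · simp [sigma, kroneckerMap_apply, Matrix.one_apply]

lemma sInf_add_eq {S A B : Set ℝ} (hA : A.Nonempty) (hB : B.Nonempty) (hAb : BddBelow A)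
    (hBb : BddBelow B) (h1 : ∀ a ∈ A, ∀ b ∈ B, a + b ∈ S)
    (h2 : ∀ s ∈ S, ∃ a ∈ A, ∃ b ∈ B, a + b ≤ s) : sInf S = sInf A + sInf B := by
  obtain ⟨a₀, ha₀⟩ := hA
  obtain ⟨b₀, hb₀⟩ := hB
  have hSne : S.Nonempty := ⟨a₀ + b₀, h1 a₀ ha₀ b₀ hb₀⟩
  have hlow : ∀ s ∈ S, sInf A + sInf B ≤ s := by
    intro s hs
    obtain ⟨a, ha, b, hb, hab⟩ := h2 s hs
    exact (add_le_add (csInf_le hAb ha) (csInf_le hBb hb)).trans hab
  have hSb : BddBelow S := ⟨_, hlow⟩
  apply le_antisymm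
  · have h3 : sInf S - sInf B ≤ sInf A := by
      apply le_csInf ⟨a₀, ha₀⟩
      intro a ha
      have h4 : sInf S - a ≤ sInf B := by
        apply le_csInf ⟨b₀, hb₀⟩
        intro b hb
        have := csInf_le hSb (h1 a ha b hb)
        linarith
      linarith
    linarith
  · exact le_csInf hSne hlow

/-- **Additivity of the squeezing measure.** -/
theorem additivity (n₁ n₂ : ℕ) (γA : Matrix (Idx n₁) (Idx n₁) ℝ) (γB : Matrix (Idx n₂) (Idx n₂) ℝ)
    (hA : IsCovariance γA) (hB : IsCovariance γB) :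
    G (directSum γA γB) = G γA + G γB := by
  rw [G_eq, G_eq, G_eq]
  set e := sumIdx n₁ n₂ with he
  have hre : ∀ X Y : Matrix (Idx n₁ ⊕ Idx n₂) (Idx n₁ ⊕ Idx n₂) ℝ,
      reindex e e X * reindex e e Y = reindex e e (X * Y) := by
    intro X Y
    simp only [reindex_apply, submatrix_mul_equiv]
  apply sInf_add_eq
  · exact (below_nonempty hA).image _
  · exact (below_nonempty hB).image _
  · exact below_bdd γA
  · exact below_bdd γB
  · rintro _ ⟨a, ha, rfl⟩ _ ⟨d, hd, rfl⟩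
    refine ⟨reindex e e (fromBlocks a 0 0 d), ⟨⟨?_, ?_⟩, ?_⟩, ?_⟩
    · have := (pure_blocks ha.1 hd.1).1.submatrix (e := e.symm) e.symm.injective
      exact this
    · have := (pure_blocks ha.1 hd.1).2
      rw [← sigma_sum, hre, hre, this]
    · have h3 := (psd_blocks ha.2 hd.2).submatrix e.symm
      rw [directSum]
      convert h3 using 1
      ext i j
      rcases h4 : e.symm i with i' | i' <;> rcases h5 : e.symm j with j' | j' <;>
        simp [← he, h4, h5]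
    · simp only
      rw [f_reindex, f_blocks]
      ring
  · rintro _ ⟨Γ, ⟨hΓ, hle⟩, rfl⟩
    obtain ⟨Γ', hΓ'⟩ : ∃ Γ', Γ = reindex e e Γ' := ⟨(reindex e e).symm Γ, by simp⟩
    subst hΓ'
    have hpd : Γ'.PosDef := by
      have := hΓ.1.submatrix (e := e) e.injective
      simpa using this
    have hps : Γ' * fromBlocks (sigma n₁) 0 0 (sigma n₂) * Γ' = fromBlocks (sigma n₁) 0 0 (sigma n₂) := by
      have h3 := hΓ.2
      rw [← sigma_sum, hre, hre] at h3
      exact (reindex e e).injective h3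
    have hle' : (fromBlocks γA 0 0 γB - Γ').PosSemidef := by
      have h3 := hle.submatrix e
      rw [directSum] at h3
      convert h3 using 1
      ext i j
      simp [← he]
    obtain ⟨a, d, ha, hd, hAa, hBd, hf⟩ := symmetrise (sigma_transpose n₁) (sigma_sq n₁)
      (sigma_transpose n₂) (sigma_sq n₂) ⟨hpd, hps⟩ hle'
    refine ⟨f a / 2, ⟨a, ⟨ha, hAa⟩, rfl⟩, f d / 2, ⟨d, ⟨hd, hBd⟩, rfl⟩, ?_⟩
    simp only
    rw [f_reindex]
    linarith

end Pool.Agent.Squeeze
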