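import Pool.Agent.Squeeze.LinAlg

open Matrix
open scoped ComplexOrder MatrixOrder

set_option linter.unusedSectionVars false

namespace Pool.Agent.Squeeze

section general

variable {ι : Type*} [Fintype ι] [DecidableEq ι]

/-- positive definite symplectic matrices -/
def Pure (σ Γ : Matrix ι ι ℝ) : Prop := Γ.PosDef ∧ Γ * σ * Γ = σ

/-- symplectic dual `τ(X) = - σ X⁻¹ σ` -/
noncomputable def tau (σ X : Matrix ι ι ℝ) : Matrix ι ι ℝ := - (σ * X⁻¹ * σ)

variable {σ : Matrix ι ι ℝ}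

lemma sigma_inv (h2 : σ * σ = -1) : σ⁻¹ = -σ := by
  apply Matrix.inv_eq_left_inv
  rw [Matrix.neg_mul, h2, neg_neg]

lemma tau_posDef (h1 : σᵀ = -σ) (h2 : σ * σ = -1) {X : Matrix ι ι ℝ} (hX : X.PosDef) :
    (tau σ X).PosDef := by
  have h3 := posDef_conj hX.inv σ (injective_of_left_inv (Q := -σ) (by
    rw [Matrix.neg_mul, h2, neg_neg]))
  rwa [h1, Matrix.neg_mul, Matrix.neg_mul] at h3

lemma tau_inv (h2 : σ * σ = -1) {X : Matrix ι ι ℝ} (hX : X.PosDef) :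
    (tau σ X)⁻¹ = - (σ * X * σ) := by
  apply Matrix.inv_eq_left_inv
  rw [tau, Matrix.neg_mul, Matrix.mul_neg, neg_neg]
  calc σ * X * σ * (σ * X⁻¹ * σ) = σ * X * (σ * σ) * X⁻¹ * σ := by simp only [Matrix.mul_assoc]
    _ = -(σ * (X * X⁻¹) * σ) := by rw [h2]; simp [Matrix.mul_assoc]
    _ = 1 := by rw [posDef_mul_inv hX, Matrix.mul_one, h2, neg_neg]

lemma tau_tau (h2 : σ * σ = -1) {X : Matrix ι ι ℝ} (hX : X.PosDef) : tau σ (tau σ X) = X := by
  rw [tau, tau_inv h2 hX]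
  calc -(σ * -(σ * X * σ) * σ) = (σ * σ) * X * (σ * σ) := by
        simp only [Matrix.mul_neg, Matrix.neg_mul, neg_neg, Matrix.mul_assoc]
    _ = X := by rw [h2]; simp

lemma pure_iff_tau (h2 : σ * σ = -1) {X : Matrix ι ι ℝ} (hX : X.PosDef) :
    X * σ * X = σ ↔ tau σ X = X := by
  constructor
  · intro h
    have : X⁻¹ = - (σ * X * σ) := by
      apply Matrix.inv_eq_left_inv
      calc -(σ * X * σ) * X = -(σ * (X * σ * X)) := by simp only [Matrix.neg_mul, Matrix.mul_assoc]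
        _ = 1 := by rw [h, h2, neg_neg]
    rw [tau, this]
    calc -(σ * -(σ * X * σ) * σ) = (σ * σ) * X * (σ * σ) := by
          simp only [Matrix.mul_neg, Matrix.neg_mul, neg_neg, Matrix.mul_assoc]
      _ = X := by rw [h2]; simp
  · intro h
    calc X * σ * X = tau σ X * σ * X := by rw [h]
      _ = -(σ * X⁻¹ * (σ * σ) * X) := by rw [tau]; simp only [Matrix.neg_mul, Matrix.mul_assoc]
      _ = σ * (X⁻¹ * X) := by rw [h2]; simp [Matrix.mul_assoc]
      _ = σ := by rw [posDef_inv_mul hX, Matrix.mul_one]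

/-- `τ` maps geometric means to geometric means -/
lemma tau_geom (h2 : σ * σ = -1) {A B M : Matrix ι ι ℝ} (hA : A.PosDef)
    (h : M * A⁻¹ * M = B) : tau σ M * (tau σ A)⁻¹ * tau σ M = tau σ B := by
  have hB : B⁻¹ = M⁻¹ * A * M⁻¹ := by
    rw [← h, Matrix.mul_inv_rev, Matrix.mul_inv_rev, Matrix.nonsing_inv_nonsing_inv A
      ((Matrix.isUnit_iff_isUnit_det A).1 hA.isUnit), ← Matrix.mul_assoc]
  rw [tau_inv h2 hA, tau, tau, hB]
  calc -(σ * M⁻¹ * σ) * -(σ * A * σ) * -(σ * M⁻¹ * σ)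
      = -(σ * M⁻¹ * (σ * σ) * A * (σ * σ) * M⁻¹ * σ) := by
        simp only [Matrix.mul_neg, Matrix.neg_mul, neg_neg, Matrix.mul_assoc]
    _ = -(σ * (M⁻¹ * A * M⁻¹) * σ) := by rw [h2]; simp [Matrix.mul_assoc]

/-- geometric mean of two pure matrices is pure -/
lemma pure_geom (h1 : σᵀ = -σ) (h2 : σ * σ = -1) {A B M : Matrix ι ι ℝ} (hA : Pure σ A)
    (hB : Pure σ B) (hM : M.PosDef) (h : M * A⁻¹ * M = B) : Pure σ M := by
  refine ⟨hM, ?_⟩
  rw [pure_iff_tau h2 hM]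
  have h3 := tau_geom h2 hA.1 h
  rw [(pure_iff_tau h2 hA.1).1 hA.2, (pure_iff_tau h2 hB.1).1 hB.2, ← h] at h3
  exact geom_uniq hA.1 (tau_posDef h1 h2 hM) hM h3

/-- inverting the Riccati relation -/
lemma geom_symm {A B M : Matrix ι ι ℝ} (hA : A.PosDef) (hM : M.PosDef)
    (h : M * A⁻¹ * M = B) : M * B⁻¹ * M = A := by
  have hB : B⁻¹ = M⁻¹ * A * M⁻¹ := by
    rw [← h, Matrix.mul_inv_rev, Matrix.mul_inv_rev, Matrix.nonsing_inv_nonsing_inv A
      ((Matrix.isUnit_iff_isUnit_det A).1 hA.isUnit), ← Matrix.mul_assoc]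
  rw [hB]
  calc M * (M⁻¹ * A * M⁻¹) * M = (M * M⁻¹) * A * (M⁻¹ * M) := by simp only [Matrix.mul_assoc]
    _ = A := by rw [posDef_mul_inv hM, posDef_inv_mul hM, Matrix.one_mul, Matrix.mul_one]

/-- geometric mean of `A` and `τ A` is pure -/
lemma pure_geom_tau (h1 : σᵀ = -σ) (h2 : σ * σ = -1) {A M : Matrix ι ι ℝ} (hA : A.PosDef)
    (hM : M.PosDef) (h : M * A⁻¹ * M = tau σ A) : Pure σ M := by
  refine ⟨hM, ?_⟩
  rw [pure_iff_tau h2 hM]
  have h3 := tau_geom h2 hA h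
  rw [tau_tau h2 hA] at h3
  have h4 := geom_symm hA hM h
  exact geom_uniq (tau_posDef h1 h2 hA) (tau_posDef h1 h2 hM) hM (h3.trans h4.symm)

/-- existence of a pure matrix below `γ` -/
lemma exists_pure (h1 : σᵀ = -σ) (h2 : σ * σ = -1) {γ : Matrix ι ι ℝ} (hγ : γ.PosDef)
    (h : (γ - tau σ γ).PosSemidef) : ∃ Γ, Pure σ Γ ∧ (γ - Γ).PosSemidef := by
  obtain ⟨M, hM, hR⟩ := exists_geom hγ (tau_posDef h1 h2 hγ)
  refine ⟨M, pure_geom_tau h1 h2 hγ hM hR, ?_⟩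
  have h3 := am_gm hγ hM hR
  have h4 : γ - M = (1 / 2 : ℝ) • ((γ - tau σ γ) + (γ + tau σ γ - (2 : ℝ) • M)) := by
    ext i j
    simp only [Matrix.sub_apply, Matrix.add_apply, Matrix.smul_apply, smul_eq_mul]
    ring
  rw [h4]
  exact (h.add h3).smul (by norm_num)

/-- the square root of a pure matrix is pure -/
lemma pure_sqrt (h1 : σᵀ = -σ) (h2 : σ * σ = -1) {Γ S : Matrix ι ι ℝ} (hΓ : Pure σ Γ)
    (hS : S.PosDef) (h : S * S = Γ) : S * σ * S = σ := by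
  rw [pure_iff_tau h2 hS]
  apply sqrt_uniq (tau_posDef h1 h2 hS).posSemidef hS.posSemidef
  rw [h, ← (pure_iff_tau h2 hΓ.1).1 hΓ.2, tau, tau, ← h, Matrix.mul_inv_rev]
  calc -(σ * S⁻¹ * σ) * -(σ * S⁻¹ * σ) = σ * S⁻¹ * (σ * σ) * S⁻¹ * σ := by
        simp only [Matrix.mul_neg, Matrix.neg_mul, neg_neg, Matrix.mul_assoc]
    _ = _ := by rw [h2]; simp [Matrix.mul_assoc]

end general

section blocks

variable {ι κ : Type*} [Fintype ι] [DecidableEq ι] [Fintype κ] [DecidableEq κ]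
variable {σ₁ : Matrix ι ι ℝ} {σ₂ : Matrix κ κ ℝ}

/-- Symmetrisation: a pure matrix below a direct sum can be replaced by a direct sum. -/
lemma symmetrise (h1 : σ₁ᵀ = -σ₁) (h2 : σ₁ * σ₁ = -1) (h1' : σ₂ᵀ = -σ₂) (h2' : σ₂ * σ₂ = -1)
    {γA : Matrix ι ι ℝ} {γB : Matrix κ κ ℝ} {Γ : Matrix (ι ⊕ κ) (ι ⊕ κ) ℝ}
    (hΓ : Pure (fromBlocks σ₁ 0 0 σ₂) Γ) (hle : (fromBlocks γA 0 0 γB - Γ).PosSemidef) :
    ∃ (a : Matrix ι ι ℝ) (d : Matrix κ κ ℝ), Pure σ₁ a ∧ Pure σ₂ d ∧ (γA - a).PosSemidef ∧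
      (γB - d).PosSemidef ∧ f a + f d ≤ f Γ := by
  set σ : Matrix (ι ⊕ κ) (ι ⊕ κ) ℝ := fromBlocks σ₁ 0 0 σ₂ with hσ
  have g1 : σᵀ = -σ := by
    rw [hσ, fromBlocks_transpose, fromBlocks_neg, h1, h1']; simp
  have g2 : σ * σ = -1 := by
    rw [hσ, fromBlocks_multiply, ← fromBlocks_one, fromBlocks_neg]; simp [h2, h2']
  obtain ⟨Z, hZ⟩ : ∃ Z : Matrix (ι ⊕ κ) (ι ⊕ κ) ℝ, Z = fromBlocks 1 0 0 (-1) := ⟨_, rfl⟩
  have hZt : Zᵀ = Z := by rw [hZ, fromBlocks_transpose]; simp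
  have hZZ : Z * Z = 1 := by rw [hZ, fromBlocks_multiply, ← fromBlocks_one]; simp
  have hZσ : Z * σ * Z = σ := by rw [hZ, hσ, fromBlocks_multiply, fromBlocks_multiply]; simp
  have hZγ : Z * fromBlocks γA 0 0 γB * Z = fromBlocks γA 0 0 γB := by
    rw [hZ, fromBlocks_multiply, fromBlocks_multiply]; simp
  have hZinj : Function.Injective Z.mulVec := injective_of_left_inv hZZ
  have hBpd : (Z * Γ * Z).PosDef := by
    have := posDef_conj hΓ.1 Z hZinj
    rwa [hZt] at this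
  have hZs : Z * σ = σ * Z := by
    calc Z * σ = Z * σ * (Z * Z) := by rw [hZZ, Matrix.mul_one]
      _ = (Z * σ * Z) * Z := by simp only [Matrix.mul_assoc]
      _ = σ * Z := by rw [hZσ]
  have hBpure : Pure σ (Z * Γ * Z) := by
    refine ⟨hBpd, ?_⟩
    calc Z * Γ * Z * σ * (Z * Γ * Z) = Z * Γ * (Z * σ * Z) * Γ * Z := by
          simp only [Matrix.mul_assoc]
      _ = Z * (Γ * σ * Γ) * Z := by rw [hZσ]; simp only [Matrix.mul_assoc]
      _ = σ := by rw [hΓ.2, hZσ]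
  obtain ⟨M, hM, hR⟩ := exists_geom hΓ.1 hBpd
  have hMpure : Pure σ M := pure_geom g1 g2 hΓ hBpure hM hR
  -- Z-invariance
  have hBinv : (Z * Γ * Z)⁻¹ = Z * Γ⁻¹ * Z := by
    apply Matrix.inv_eq_left_inv
    calc Z * Γ⁻¹ * Z * (Z * Γ * Z) = Z * Γ⁻¹ * (Z * Z) * Γ * Z := by simp only [Matrix.mul_assoc]
      _ = Z * (Γ⁻¹ * Γ) * Z := by rw [hZZ, Matrix.mul_one]; simp only [Matrix.mul_assoc]
      _ = 1 := by rw [posDef_inv_mul hΓ.1, Matrix.mul_one, hZZ]
  have hMsym := geom_symm hΓ.1 hM hR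
  rw [hBinv] at hMsym
  have hZMZ : Z * M * Z = M := by
    have hpd : (Z * M * Z).PosDef := by
      have := posDef_conj hM Z hZinj
      rwa [hZt] at this
    apply geom_uniq hΓ.1 hpd hM
    rw [hR]
    calc Z * M * Z * Γ⁻¹ * (Z * M * Z) = Z * (M * (Z * Γ⁻¹ * Z) * M) * Z := by
          simp only [Matrix.mul_assoc]
      _ = Z * Γ * Z := by rw [hMsym]
  -- blocks
  obtain ⟨a, b, c, d, hMb⟩ : ∃ a b c d, M = fromBlocks a b c d :=
    ⟨_, _, _, _, (fromBlocks_toBlocks M).symm⟩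
  rw [hMb, hZ, fromBlocks_multiply, fromBlocks_multiply, fromBlocks_inj] at hZMZ
  have hb : b = 0 := by
    have := hZMZ.2.1
    simp only [Matrix.one_mul, Matrix.zero_mul, add_zero, Matrix.mul_zero, Matrix.mul_neg,
      Matrix.mul_one, zero_add] at this
    ext i j
    have h3 := congrFun (congrFun this i) j
    simp only [Matrix.neg_apply, Matrix.zero_apply] at h3 ⊢
    linarith
  have hc : c = 0 := by
    have := hZMZ.2.2.1
    simp only [Matrix.zero_mul, Matrix.mul_zero, Matrix.mul_one, zero_add, add_zero,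
      Matrix.neg_mul, Matrix.one_mul] at this
    ext i j
    have h3 := congrFun (congrFun this i) j
    simp only [Matrix.neg_apply, Matrix.zero_apply] at h3 ⊢
    linarith
  subst hb hc
  have ha : a.PosDef := by
    have := hM.submatrix (e := Sum.inl) Sum.inl_injective
    rw [hMb] at this
    exact this
  have hd : d.PosDef := by
    have := hM.submatrix (e := Sum.inr) Sum.inr_injective
    rw [hMb] at this
    exact this
  have hs := hMpure.2
  rw [hMb, hσ, fromBlocks_multiply, fromBlocks_multiply, fromBlocks_inj] at hs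
  have hsa : a * σ₁ * a = σ₁ := by simpa using hs.1
  have hsd : d * σ₂ * d = σ₂ := by simpa using hs.2.2.2
  -- order
  have hle2 : (fromBlocks γA 0 0 γB - Z * Γ * Z).PosSemidef := by
    have := posSemidef_conj hle Z
    rwa [hZt, Matrix.mul_sub, Matrix.sub_mul, hZγ] at this
  have hle3 : (fromBlocks γA 0 0 γB - M).PosSemidef := by
    have h3 := am_gm hΓ.1 hM hR
    have h4 : fromBlocks γA 0 0 γB - M = (1 / 2 : ℝ) • (((fromBlocks γA 0 0 γB - Γ)
        + (fromBlocks γA 0 0 γB - Z * Γ * Z)) + (Γ + Z * Γ * Z - (2 : ℝ) • M)) := by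
      generalize Z * Γ * Z = B
      generalize (fromBlocks γA 0 0 γB : Matrix (ι ⊕ κ) (ι ⊕ κ) ℝ) = G
      ext i j
      simp only [Matrix.sub_apply, Matrix.add_apply, Matrix.smul_apply, smul_eq_mul]
      ring
    rw [h4]
    exact ((hle.add hle2).add h3).smul (by norm_num)
  have hAle : (γA - a).PosSemidef := by
    have := hle3.submatrix Sum.inl
    rw [hMb] at this
    convert this using 1
    ext i j
    simp
  have hBle : (γB - d).PosSemidef := by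
    have := hle3.submatrix Sum.inr
    rw [hMb] at this
    convert this using 1
    ext i j
    simp
  -- f
  have hf := f_geom hΓ.1 hBpd hM hR
  rw [f_conj Γ Z Z hZZ, hMb, f_blocks] at hf
  exact ⟨a, d, ⟨ha, hsa⟩, ⟨hd, hsd⟩, hAle, hBle, by linarith⟩

/-- direct sums of pure matrices -/
lemma pure_blocks {a : Matrix ι ι ℝ} {d : Matrix κ κ ℝ} (ha : Pure σ₁ a) (hd : Pure σ₂ d) :
    Pure (fromBlocks σ₁ 0 0 σ₂) (fromBlocks a 0 0 d) := by
  refine ⟨?_, ?_⟩
  · let _ := ha.1.isUnit.invertible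
    have h1 : (fromBlocks a 0 (0 : Matrix ι κ ℝ)ᴴ d).PosSemidef := by
      rw [PosDef.fromBlocks₁₁ _ _ ha.1]
      simpa using hd.1.posSemidef
    rw [conjTranspose_zero] at h1
    rw [h1.posDef_iff_det_ne_zero, det_fromBlocks_zero₂₁]
    exact mul_ne_zero ha.1.det_pos.ne' hd.1.det_pos.ne'
  · rw [fromBlocks_multiply, fromBlocks_multiply]
    simp [ha.2, hd.2]

lemma psd_blocks {a : Matrix ι ι ℝ} {d : Matrix κ κ ℝ} (ha : a.PosSemidef) (hd : d.PosSemidef) :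
    (fromBlocks a 0 0 d).PosSemidef := by
  refine PosSemidef.of_dotProduct_mulVec_nonneg ?_ fun x => ?_
  · have h1 := ha.isHermitian
    have h2 := hd.isHermitian
    rw [IsHermitian, fromBlocks_conjTranspose, h1.eq, h2.eq]; simp
  · rw [← Sum.elim_comp_inl_inr x, fromBlocks_mulVec]
    have h1 := ha.dotProduct_mulVec_nonneg (x ∘ Sum.inl)
    have h2 := hd.dotProduct_mulVec_nonneg (x ∘ Sum.inr)
    simp only [star_trivial, Sum.elim_comp_inl, Sum.elim_comp_inr, Matrix.zero_mulVec, add_zero,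
      zero_add] at h1 h2 ⊢
    rw [sumElim_dotProduct_sumElim]
    exact add_nonneg h1 h2

end blocks

end Pool.Agent.Squeeze
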