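import Pool.Agent.Squeeze.Defs
import Pool.Agent.Squeeze.Symp

open Matrix
open scoped Kronecker ComplexOrder MatrixOrder

set_option linter.unusedSectionVars false

namespace Pool.Agent.Squeeze

lemma sigma_transpose (n : ℕ) : (sigma n)ᵀ = - sigma n := by
  rw [sigma, ← kroneckerMap_transpose, transpose_one]
  ext ⟨i, a⟩ ⟨j, b⟩
  simp only [kroneckerMap_apply, Matrix.neg_apply, transpose_apply]
  fin_cases a <;> fin_cases b <;> simp

lemma sigma_sq (n : ℕ) : sigma n * sigma n = -1 := by
  rw [sigma, ← mul_kronecker_mul, Matrix.one_mul]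
  have : (!![0, 1; -1, 0] : Matrix (Fin 2) (Fin 2) ℝ) * !![0, 1; -1, 0] = -1 := by
    ext a b
    fin_cases a <;> fin_cases b <;> simp
  rw [this]
  ext ⟨i, a⟩ ⟨j, b⟩
  simp only [kroneckerMap_apply, Matrix.neg_apply, Matrix.one_apply, Prod.mk.injEq]
  by_cases h : i = j <;> by_cases h' : a = b <;> simp [h, h']

lemma card_idx (n : ℕ) : Fintype.card (Idx n) = n * 2 := by simp

/-- two antitone functions with the same multiset of values agree -/
lemma eq_of_antitone_of_multiset {N : ℕ} {g h : Fin N → ℝ} (hg : Antitone g) (hh : Antitone h)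
    (he : Multiset.map g Finset.univ.val = Multiset.map h Finset.univ.val) : g = h := by
  rw [Fin.univ_val_map, Fin.univ_val_map, Multiset.coe_eq_coe] at he
  have h1 : (List.ofFn g) = (List.ofFn h) := by
    have s1 : (List.ofFn g).SortedGE := hg.sortedGE_ofFn
    have s2 : (List.ofFn h).SortedGE := hh.sortedGE_ofFn
    exact he.eq_of_pairwise' s1.pairwise s2.pairwise
  exact List.ofFn_inj.1 h1

/-- the spectrum of a pure matrix is invariant under inversion -/
lemma roots_inv {ι : Type*} [Fintype ι] [DecidableEq ι] {σ Γ : Matrix ι ι ℝ}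
    (h2 : σ * σ = -1) (hΓ : Pure σ Γ) :
    Γ.charpoly.roots.map (fun t => t⁻¹) = Γ.charpoly.roots := by
  obtain ⟨U, hU1, hU2, hs⟩ := spectral hΓ.1.isHermitian
  set l := hΓ.1.isHermitian.eigenvalues with hl
  have hlpos : ∀ i, 0 < l i := fun i => hΓ.1.eigenvalues_pos i
  have hinv : Γ⁻¹ = U * diagonal (fun i => (l i)⁻¹) * Uᵀ := by
    apply Matrix.inv_eq_left_inv
    rw [hs]
    calc U * diagonal (fun i => (l i)⁻¹) * Uᵀ * (U * diagonal l * Uᵀ)
        = U * (diagonal (fun i => (l i)⁻¹) * (Uᵀ * U) * diagonal l) * Uᵀ := by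
          simp only [Matrix.mul_assoc]
      _ = 1 := by
          rw [hU1, Matrix.mul_one, diagonal_mul_diagonal]
          have : (fun i => (l i)⁻¹ * l i) = fun _ => 1 := by
            ext i; exact inv_mul_cancel₀ (hlpos i).ne'
          rw [this, diagonal_one, Matrix.mul_one, hU2]
  have h3 : Γ⁻¹.charpoly = Γ.charpoly := by
    have h4 := (pure_iff_tau h2 hΓ.1).1 hΓ.2
    have h5 : Γ⁻¹ = σ * Γ * (-σ) := by
      conv_rhs => rw [← h4, tau]
      calc Γ⁻¹ = (σ * σ) * Γ⁻¹ * (σ * σ) := by rw [h2]; simp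
        _ = _ := by simp only [Matrix.mul_neg, Matrix.neg_mul, neg_neg, Matrix.mul_assoc]
    rw [h5, charpoly_mul_comm, ← Matrix.mul_assoc, Matrix.neg_mul, h2, neg_neg, Matrix.one_mul]
  have h6 : Γ⁻¹.charpoly.roots = Multiset.map (fun i => (l i)⁻¹) Finset.univ.val := by
    rw [hinv, charpoly_mul_comm, ← Matrix.mul_assoc, hU1, Matrix.one_mul, charpoly_diagonal]
    have h7 : (∏ i, (Polynomial.X - Polynomial.C ((l i)⁻¹))) =
        (Multiset.map (fun a => Polynomial.X - Polynomial.C a)
          (Multiset.map (fun i => (l i)⁻¹) Finset.univ.val)).prod := by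
      rw [Multiset.map_map]; rfl
    rw [h7, Polynomial.roots_multiset_prod_X_sub_C]
  rw [h3] at h6
  rw [h6, Multiset.map_map]
  have h8 := hΓ.1.isHermitian.roots_charpoly_eq_eigenvalues
  rw [h6] at h8
  rw [h8]
  refine Multiset.map_congr rfl fun i _ => ?_
  simp [hl]

/-- singular values of a matrix as square roots of eigenvalues -/
lemma singularValues_eq {ι : Type*} [Fintype ι] [DecidableEq ι] (S : Matrix ι ι ℝ)
    (hH : (Sᵀ * S).IsHermitian) (k : ℕ) (hk : k < Fintype.card ι) :
    (Matrix.toEuclideanLin S).singularValues k = Real.sqrt (hH.eigenvalues₀ ⟨k, hk⟩) := by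
  have hfr : Module.finrank ℝ (EuclideanSpace ℝ ι) = Fintype.card ι := finrank_euclideanSpace
  rw [LinearMap.singularValues_of_lt _ hfr hk]
  congr 1
  have key : ∀ (L : EuclideanSpace ℝ ι →ₗ[ℝ] EuclideanSpace ℝ ι)
      (h : L.IsSymmetric) (h' : (Matrix.toEuclideanLin (Sᵀ * S)).IsSymmetric),
      L = Matrix.toEuclideanLin (Sᵀ * S) →
      h.eigenvalues hfr ⟨k, hk⟩ = h'.eigenvalues hfr ⟨k, hk⟩ := by
    rintro L h h' rfl
    rfl
  apply key
  rw [← conjTranspose_eq_transpose_of_trivial, ← Matrix.toEuclideanLin_conjTranspose_eq_adjoint]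
  ext v i
  simp [Matrix.toLpLin_apply, Matrix.mulVec_mulVec]

/-- eigenvalues of pure matrices come in pairs `λ, λ⁻¹` -/
lemma eigenvalues_pair {ι : Type*} [Fintype ι] [DecidableEq ι] {σ Γ : Matrix ι ι ℝ}
    (h2 : σ * σ = -1) (hΓ : Pure σ Γ) (i : Fin (Fintype.card ι)) :
    hΓ.1.isHermitian.eigenvalues₀ i = (hΓ.1.isHermitian.eigenvalues₀ (Fin.rev i))⁻¹ := by
  set l := hΓ.1.isHermitian.eigenvalues₀ with hl
  have hpos : ∀ i, 0 < l i := by
    intro i
    have := hΓ.1.eigenvalues_pos ((Fintype.equivOfCardEq (Fintype.card_fin _)) i)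
    simpa [IsHermitian.eigenvalues] using this
  have hanti : Antitone l := hΓ.1.isHermitian.eigenvalues₀_antitone
  have hanti' : Antitone (fun i => (l (Fin.rev i))⁻¹) := by
    intro a b hab
    have h3 : l (Fin.rev a) ≤ l (Fin.rev b) := hanti (Fin.rev_le_rev.2 hab)
    exact inv_anti₀ (hpos _) h3
  have hroots : Γ.charpoly.roots = Multiset.map l Finset.univ.val :=
    hΓ.1.isHermitian.roots_charpoly_eq_eigenvalues₀
  have hmap : Multiset.map l Finset.univ.val
      = Multiset.map (fun i => (l (Fin.rev i))⁻¹) Finset.univ.val := by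
    have h4 := roots_inv h2 hΓ
    rw [hroots, Multiset.map_map] at h4
    rw [← h4]
    have h5 : Multiset.map (fun i => (l (Fin.rev i))⁻¹) Finset.univ.val
        = Multiset.map (fun i => (l i)⁻¹) (Multiset.map Fin.rev Finset.univ.val) := by
      rw [Multiset.map_map]; rfl
    have h6 : Multiset.map Fin.rev (Finset.univ : Finset (Fin (Fintype.card ι))).val
        = Finset.univ.val := by
      have := Finset.map_univ_equiv (Fin.revPerm : Equiv.Perm (Fin (Fintype.card ι)))
      have h7 := congrArg Finset.val this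
      rwa [Finset.map_val] at h7
    rw [h5, h6]
    rfl
  exact congrFun (eq_of_antitone_of_multiset hanti hanti' hmap) i

/-- The sum of the logarithms of the `n` largest singular values of a symplectic matrix. -/
lemma sum_log_general {ι : Type*} [Fintype ι] [DecidableEq ι] {σ S : Matrix ι ι ℝ} {n : ℕ}
    (hN : Fintype.card ι = n * 2) (h2 : σ * σ = -1) (hΓ : Pure σ (Sᵀ * S)) :
    ∑ k ∈ Finset.range n, Real.log ((Matrix.toEuclideanLin S).singularValues k)
      = f (Sᵀ * S) / 2 := by
  set l := hΓ.1.isHermitian.eigenvalues₀ with hl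
  have hpos : ∀ i, 0 < l i := by
    intro i
    have := hΓ.1.eigenvalues_pos ((Fintype.equivOfCardEq (Fintype.card_fin _)) i)
    simpa [IsHermitian.eigenvalues] using this
  have hanti : Antitone l := hΓ.1.isHermitian.eigenvalues₀_antitone
  have hroots : (Sᵀ * S).charpoly.roots = Multiset.map l Finset.univ.val :=
    hΓ.1.isHermitian.roots_charpoly_eq_eigenvalues₀
  have hpair : ∀ i, l i = (l (Fin.rev i))⁻¹ := fun i => eigenvalues_pair h2 hΓ i
  have hge : ∀ i : Fin (Fintype.card ι), (i : ℕ) < n → 1 ≤ l i := by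
    intro i hi
    have h3 : i ≤ Fin.rev i := by
      rw [Fin.le_def, Fin.val_rev]; omega
    have h4 : l (Fin.rev i) ≤ l i := hanti h3
    by_contra hlt
    push Not at hlt
    have h5 := hpair i
    have h6 : l (Fin.rev i) < 1 := lt_of_le_of_lt h4 hlt
    have h7 : 1 < (l (Fin.rev i))⁻¹ := (one_lt_inv₀ (hpos _)).2 h6
    rw [← h5] at h7
    linarith
  have hle : ∀ i : Fin (Fintype.card ι), n ≤ (i : ℕ) → l i ≤ 1 := by
    intro i hi
    have h3 : ((Fin.rev i : Fin _) : ℕ) < n := by
      rw [Fin.val_rev]; have := i.2; omega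
    have h4 := hge _ h3
    rw [hpair i]
    exact inv_le_one_of_one_le₀ h4
  have hf : f (Sᵀ * S) = ∑ i : Fin (Fintype.card ι), Real.log (max 1 (l i)) := by
    rw [f, hroots, Multiset.map_map]; rfl
  set g : ℕ → ℝ := fun k => if h : k < Fintype.card ι then Real.log (max 1 (l ⟨k, h⟩)) else 0
    with hg
  have h3 : ∑ i : Fin (Fintype.card ι), Real.log (max 1 (l i))
      = ∑ k ∈ Finset.range (Fintype.card ι), g k := by
    rw [Finset.sum_range]
    refine Finset.sum_congr rfl fun i _ => ?_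
    simp [hg]
  have h4 : ∑ k ∈ Finset.range (Fintype.card ι), g k = ∑ k ∈ Finset.range n, g k := by
    symm
    apply Finset.sum_subset
    · intro k hk
      rw [Finset.mem_range] at hk ⊢
      omega
    · intro k hk hk'
      rw [Finset.mem_range] at hk
      rw [Finset.mem_range, not_lt] at hk'
      simp only [hg, dif_pos hk]
      rw [max_eq_left (hle ⟨k, hk⟩ hk'), Real.log_one]
  rw [hf, h3, h4, Finset.sum_div]
  refine Finset.sum_congr rfl fun k hk => ?_
  rw [Finset.mem_range] at hk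
  have hk' : k < Fintype.card ι := by omega
  rw [singularValues_eq S hΓ.1.isHermitian k hk']
  simp only [hg, dif_pos hk']
  rw [max_eq_right (hge ⟨k, hk'⟩ hk), Real.log_sqrt (hpos _).le]

lemma sum_log_singVal {n : ℕ} {S : Matrix (Idx n) (Idx n) ℝ} (hΓ : Pure (sigma n) (Sᵀ * S)) :
    ∑ k ∈ Finset.range n, Real.log (singVal S k) = f (Sᵀ * S) / 2 :=
  sum_log_general (card_idx n) (sigma_sq n) hΓ

end Pool.Agent.Squeeze
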